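import Mathlib
import Pool.Agent.H54.TS.Defs

/-! Shift graphs: uncountable chromatic number and large odd girth. -/

set_option autoImplicit false

universe u v w

namespace Pool.Agent.H54.TS

namespace Shift

/-- Strictly increasing sequences of length `m + 1`. -/
def Seqs (X : Type u) [LinearOrder X] (m : ℕ) : Type u := {x : Fin (m + 1) → X // StrictMono x}

/-- The shift relation. -/
def Arrow {X : Type u} [LinearOrder X] {m : ℕ} (x y : Seqs X m) : Prop :=
  (∀ i : Fin m, y.1 i.castSucc = x.1 i.succ) ∧ x.1 (Fin.last m) < y.1 (Fin.last m)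

/-- The shift graph. -/
def shift (X : Type u) [LinearOrder X] (m : ℕ) : SimpleGraph (Seqs X m) where
  Adj x y := Arrow x y ∨ Arrow y x
  symm := ⟨fun _ _ h => h.symm⟩
  loopless := ⟨fun _ h => by
    rcases h with h | h <;> exact lt_irrefl _ h.2⟩

theorem step {X : Type u} [LinearOrder X] {m : ℕ} {C : Type w}
    (h : ∃ c : Seqs X (m + 1) → C, ∀ x y, (shift X (m + 1)).Adj x y → c x ≠ c y) :
    ∃ c : Seqs X m → Set C, ∀ x y, (shift X m).Adj x y → c x ≠ c y := by
  obtain ⟨c, hc⟩ := h
  refine ⟨fun x => {a | ∃ z : Seqs X (m + 1), (∀ i, z.1 (Fin.castSucc i) = x.1 i) ∧ c z = a}, ?_⟩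
  have key : ∀ x y : Seqs X m, Arrow x y →
      {a | ∃ z : Seqs X (m + 1), (∀ i, z.1 (Fin.castSucc i) = x.1 i) ∧ c z = a} ≠
      {a | ∃ z : Seqs X (m + 1), (∀ i, z.1 (Fin.castSucc i) = y.1 i) ∧ c z = a} := by
    intro x y hxy he
    have hz : StrictMono (Fin.snoc (α := fun _ => X) x.1 (y.1 (Fin.last m)) : Fin (m + 2) → X) := by
      rw [Fin.strictMono_iff_lt_succ]
      intro i
      induction i using Fin.lastCases with
      | last =>
        simp only [Fin.snoc_castSucc, Fin.succ_last, Fin.snoc_last]
        exact hxy.2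
      | cast j =>
        rw [Fin.succ_castSucc]
        simp only [Fin.snoc_castSucc]
        exact x.2 (Fin.castSucc_lt_succ)
    let z : Seqs X (m + 1) := ⟨_, hz⟩
    have h1 : c z ∈ {a | ∃ z : Seqs X (m + 1),
        (∀ i, z.1 (Fin.castSucc i) = x.1 i) ∧ c z = a} :=
      ⟨z, fun i => by simp [z], rfl⟩
    rw [he] at h1
    obtain ⟨z', hz', hcz⟩ := h1
    refine hc z z' (Or.inl ⟨?_, ?_⟩) hcz.symm
    · intro i
      rw [hz']
      induction i using Fin.lastCases with
      | last => simp [z]
      | cast j =>
        rw [hxy.1 j, Fin.succ_castSucc]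
        exact (Fin.snoc_castSucc (α := fun _ => X) _ _ _).symm
    · have h2 : z.1 (Fin.last (m + 1)) = z'.1 (Fin.castSucc (Fin.last m)) := by
        rw [hz']; simp [z]
      rw [h2]
      exact z'.2 (Fin.castSucc_lt_last _)
  intro x y hxy
  rcases hxy with hxy | hxy
  · exact key x y hxy
  · exact (key y x hxy).symm

theorem inj_of_colouring {X : Type u} [LinearOrder X] (m : ℕ) : ∀ (C : Type u),
    (∃ c : Seqs X m → C, ∀ x y, (shift X m).Adj x y → c x ≠ c y) →
    ∃ f : X → ((fun T : Type u => Set T)^[m] C), Function.Injective f := by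
  induction m with
  | zero =>
    intro C ⟨c, hc⟩
    refine ⟨fun x => c ⟨fun _ => x, ?_⟩, ?_⟩
    · intro a b hab
      exact absurd (Fin.ext (by omega)) hab.ne
    · intro x y hxy
      by_contra hne
      refine hc _ _ ?_ hxy
      rcases lt_or_gt_of_ne hne with h | h
      · exact Or.inl ⟨fun i => i.elim0, h⟩
      · exact Or.inr ⟨fun i => i.elim0, h⟩
  | succ m ih =>
    intro C h
    exact ih (Set C) (step h)

theorem walk_height {X : Type u} [LinearOrder X] {m : ℕ} {x y : Seqs X m}
    (p : (shift X m).Walk x y) : ∃ h : ℤ, |h| ≤ p.length ∧ Even (h + p.length) ∧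
      ∀ i j : Fin (m + 1), p.length ≤ (i : ℕ) → (i : ℕ) + p.length ≤ m →
        ((j : ℕ) : ℤ) = (i : ℕ) - h → x.1 i = y.1 j := by
  induction p with
  | nil =>
    refine ⟨0, by simp, by simp, ?_⟩
    intro i j _ _ hij
    have : i = j := Fin.ext (by omega)
    rw [this]
  | @cons a b c hab q ih =>
    obtain ⟨h, h1, h2, h3⟩ := ih
    rcases hab with hab | hab
    · refine ⟨h + 1, ?_, ?_, ?_⟩
      · rw [SimpleGraph.Walk.length_cons]
        push_cast
        exact (abs_add_le h 1).trans (by simpa using h1)
      · rw [SimpleGraph.Walk.length_cons]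
        push_cast
        have : h + 1 + ((q.length : ℤ) + 1) = (h + q.length) + 2 := by ring
        rw [this]
        exact h2.add (by decide)
      · intro i j hi hi2 hij
        rw [SimpleGraph.Walk.length_cons] at hi hi2
        have hb : a.1 i = b.1 ⟨(i : ℕ) - 1, by omega⟩ := by
          have := hab.1 ⟨(i : ℕ) - 1, by omega⟩
          have e1 : (Fin.succ ⟨(i : ℕ) - 1, by omega⟩ : Fin (m + 1)) = i :=
            Fin.ext (by simp; omega)
          rw [e1] at this
          rw [← this]
          rfl
        rw [hb]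
        exact h3 _ _ (by simp; omega) (by simp; omega) (by simp; omega)
    · refine ⟨h - 1, ?_, ?_, ?_⟩
      · rw [SimpleGraph.Walk.length_cons]
        push_cast
        exact (abs_sub h 1).trans (by simpa using h1)
      · rw [SimpleGraph.Walk.length_cons]
        push_cast
        have : h - 1 + ((q.length : ℤ) + 1) = (h + q.length) := by ring
        rw [this]
        exact h2
      · intro i j hi hi2 hij
        rw [SimpleGraph.Walk.length_cons] at hi hi2
        have hb : a.1 i = b.1 ⟨(i : ℕ) + 1, by omega⟩ := by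
          have := hab.1 ⟨(i : ℕ), by omega⟩
          exact this
        rw [hb]
        exact h3 _ _ (by simp; omega) (by simp; omega) (by simp; omega)

theorem no_odd {X : Type u} [LinearOrder X] {m : ℕ} {x : Seqs X m}
    (p : (shift X m).Walk x x) (hp : 2 * p.length ≤ m) : Even p.length := by
  obtain ⟨h, h1, h2, h3⟩ := walk_height p
  have h4 := abs_le.mp h1
  have h5 := h3 ⟨p.length, by omega⟩ ⟨(p.length - h).toNat, by omega⟩ (le_refl _)
    (by simp; omega) (by simp; omega)
  have h6 := congrArg Fin.val (x.2.injective h5)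
  simp only at h6
  have h7 : h = 0 := by omega
  rw [h7, zero_add] at h2
  exact_mod_cast h2

end Shift

open Shift in
/-- N2 -/
theorem exists_graph (k : ℕ) : ∃ (Ω : Type u) (G : SimpleGraph Ω),
    (¬ ∃ c : Ω → ℕ, ∀ x y, G.Adj x y → c x ≠ c y) ∧
    ∀ (W : Type v) [Finite W] (H : SimpleGraph W) (φ : W → Ω), Nat.card W ≤ k →
      (∀ x y, H.Adj x y → G.Adj (φ x) (φ y)) → ∃ c : W → Bool, ∀ x y, H.Adj x y → c x ≠ c y := by
  classical
  let X : Type u := (fun T : Type u => Set T)^[4 * k + 1] (ULift.{u} ℕ)
  let _ : LinearOrder X := linearOrderOfSTO WellOrderingRel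
  refine ⟨Seqs X (4 * k), shift X (4 * k), ?_, ?_⟩
  · rintro ⟨c, hc⟩
    obtain ⟨f, hf⟩ := inj_of_colouring (X := X) (4 * k) (ULift.{u} ℕ)
      ⟨fun x => ⟨c x⟩, fun x y h he => hc x y h (congrArg ULift.down he)⟩
    have hX : X = Set ((fun T : Type u => Set T)^[4 * k] (ULift.{u} ℕ)) :=
      Function.iterate_succ_apply' _ _ _
    refine Function.cantor_injective
      (fun s : Set ((fun T : Type u => Set T)^[4 * k] (ULift.{u} ℕ)) => f (cast hX.symm s)) ?_
    intro a b hab
    have := hf hab
    exact (cast_inj hX.symm).mp this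
  · intro W _ H φ hW hφ
    have _ : Fintype W := Fintype.ofFinite W
    rw [Nat.card_eq_fintype_card] at hW
    let rep : W → W := fun x => (H.connectedComponentMk x).out
    have hrep : ∀ x, H.Reachable (rep x) x := fun x =>
      SimpleGraph.ConnectedComponent.exact (Quot.out_eq (H.connectedComponentMk x))
    refine ⟨fun x => decide (Even (H.dist (rep x) x)), ?_⟩
    intro x y hxy he
    have hr : rep x = rep y := by
      have : H.connectedComponentMk x = H.connectedComponentMk y :=
        SimpleGraph.ConnectedComponent.sound hxy.reachable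
      show (H.connectedComponentMk x).out = (H.connectedComponentMk y).out
      rw [this]
    obtain ⟨p, hp, hpl⟩ := (hrep x).exists_path_of_dist
    obtain ⟨q, hq, hql⟩ := (hrep y).exists_path_of_dist
    have hp2 := hp.length_lt
    have hq2 := hq.length_lt
    let F : H →g shift X (4 * k) := ⟨φ, fun {a b} h => hφ a b h⟩
    let r : H.Walk (rep x) (rep x) := (p.concat hxy).append (q.reverse.copy rfl hr.symm)
    have hl : r.length = p.length + 1 + q.length := by
      simp [r, SimpleGraph.Walk.length_append, SimpleGraph.Walk.length_concat]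
    have h1 := no_odd (r.map F) (by rw [SimpleGraph.Walk.length_map, hl]; omega)
    rw [SimpleGraph.Walk.length_map, hl] at h1
    have h2 : Even p.length ↔ Even q.length := by
      rw [hpl, hql]
      exact decide_eq_decide.mp he
    have h3 : Even (p.length + q.length) := by
      rw [Nat.even_add]; exact h2
    have h4 : p.length + 1 + q.length = p.length + q.length + 1 := by ring
    rw [h4, Nat.even_add_one] at h1
    exact h1 h3

end Pool.Agent.H54.TS
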